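import Pool.Agent.Y507.LS.Stm

set_option autoImplicit false

/-! # The layers of a nonnegative number sum to it -/

namespace Pool.Agent.Y900.LS

open MeasureTheory Set Filter
open scoped ENNReal Topology
open Pool.Agent.Y507.LS

theorem layer_nonneg {lo : ℝ} (hlo : 0 ≤ lo) (u : ℝ) : 0 ≤ layer lo u := by
  unfold layer
  rw [sub_nonneg]
  exact min_le_min le_rfl (by linarith)

theorem thm : Pool.Agent.Y507.LS.S_TELE := by
  intro u hu
  have h1 : HasSum (fun n : ℕ => layer ((2 : ℝ) ^ (n : ℤ)) u) (u - min u 1) := by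
    rw [hasSum_iff_tendsto_nat_of_nonneg (fun n => layer_nonneg (by positivity) u)]
    have e : ∀ N : ℕ, ∑ i ∈ Finset.range N, layer ((2 : ℝ) ^ (i : ℤ)) u =
        min u ((2 : ℝ) ^ N) - min u 1 := by
      intro N
      have := Finset.sum_range_sub (fun n : ℕ => min u ((2 : ℝ) ^ n)) N
      simp only [pow_zero] at this
      rw [← this]
      refine Finset.sum_congr rfl fun i _ => ?_
      unfold layer
      rw [zpow_natCast, pow_succ, mul_comm 2]
    simp only [e]
    refine Tendsto.sub_const ?_ _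
    refine tendsto_const_nhds.congr' ?_
    obtain ⟨N, hN⟩ := pow_unbounded_of_one_lt u (one_lt_two)
    filter_upwards [eventually_ge_atTop N] with n hn
    rw [min_eq_left]
    exact hN.le.trans (pow_le_pow_right₀ one_le_two hn)
  have h2 : HasSum (fun n : ℕ => layer ((2 : ℝ) ^ (-((n : ℤ) + 1))) u) (min u 1) := by
    rw [hasSum_iff_tendsto_nat_of_nonneg (fun n => layer_nonneg (by positivity) u)]
    have e : ∀ N : ℕ, ∑ i ∈ Finset.range N, layer ((2 : ℝ) ^ (-((i : ℤ) + 1))) u =
        min u 1 - min u ((1 / 2 : ℝ) ^ N) := by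
      intro N
      have := Finset.sum_range_sub' (fun n : ℕ => min u ((1 / 2 : ℝ) ^ n)) N
      simp only [pow_zero] at this
      rw [← this]
      refine Finset.sum_congr rfl fun i _ => ?_
      unfold layer
      have e1 : (2 : ℝ) ^ (-((i : ℤ) + 1)) = (1 / 2) ^ (i + 1) := by
        rw [zpow_neg, one_div, inv_pow, ← zpow_natCast]
        push_cast
        rfl
      have e2 : 2 * (1 / 2 : ℝ) ^ (i + 1) = (1 / 2) ^ i := by
        rw [pow_succ]
        ring
      rw [e1, e2]
    simp only [e]
    have h3 : Tendsto (fun N : ℕ => (1 / 2 : ℝ) ^ N) atTop (𝓝 0) :=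
      tendsto_pow_atTop_nhds_zero_of_lt_one (by norm_num) (by norm_num)
    have h4 : Tendsto (fun N : ℕ => min u ((1 / 2 : ℝ) ^ N)) atTop (𝓝 (min u 0)) :=
      tendsto_const_nhds.min h3
    rw [min_eq_right hu] at h4
    have h5 := h4.const_sub (min u 1)
    rwa [sub_zero] at h5
  have h6 := HasSum.of_nat_of_neg_add_one (f := fun k : ℤ => layer ((2 : ℝ) ^ k) u) h1 h2
  rwa [sub_add_cancel] at h6

end Pool.Agent.Y900.LS
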